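import Pool.Agent.R5.FF.Final

/-!
# Graphs with few frustrated `k`-cycles

`frus k G` counts the frustrated `k`-cycles of `G` (as cyclic injective sequences). For all
`k ≥ 3`, `t ≥ 0` and `n ≥ 8 k² (t + 1) + 10`: a graph on `n` vertices with fewer frustrated
`k`-cycles than the star with `t + 1` edges, or its complement, is within `t` flips of a complete
bipartite graph.

Idea of the proof. Adding a cut does not change the number of frustrated cycles. (1) If two
`k`-sequences differ in one entry, their parities differ by the parity of a four-cycle, so a graph
with few frustrated `k`-cycles has few frustrated four-cycles, and averaging over two consecutive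
vertices of these gives that `G` or its complement is a cut plus boundedly many pairs. (2) If `H` has
`m` edges and `N` denotes the number of edges of `H` on a random `k`-cycle, the probability that `N`
is odd is at least `E (2 N - N ^ 2)`, with equality for stars; this expectation is at least
`c m (n - 1 - m)`, with equality for stars.
-/

namespace Pool.Agent.Results.MP_9feecb_co.FewFrustrated

open Pool.Agent.R5.FF

/-- For every `k ≥ 3` and `t ≥ 0` and all `n ≥ 8 k² (t + 1) + 10`: if the graph `G` on `n` vertices
has fewer frustrated `k`-cycles than the `(t + 1)`-star on `n` vertices, then `G` or its complement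
differs from some complete bipartite graph in at most `t` pairs. -/
theorem result : ∀ k t n : ℕ, 3 ≤ k → 8 * k ^ 2 * (t + 1) + 10 ≤ n → ∀ G : SimpleGraph (Fin n),
    frus k G < frus k (starG n (t + 1)) →
    ∃ B : Set (Fin n), (symmDiff G.edgeSet (cbip B).edgeSet).ncard ≤ t ∨
      (symmDiff Gᶜ.edgeSet (cbip B).edgeSet).ncard ≤ t :=
  fun _ t n hk hn G h => main hk t n hn G h

end Pool.Agent.Results.MP_9feecb_co.FewFrustrated
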